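import Mathlib
import Pool.Agent.Work.MP_67f4ac_gt.TwinCore
import Pool.Agent.Work.MP_67f4ac_gt.Sieve

/-!
A cusped hyperbolic 3-manifold of finite volume whose number of distinct lengths of closed
geodesics satisfies `liminf e^(-L) N(L) < ∞` is arithmetic.
-/

set_option autoImplicit false

namespace Pool.Agent.Results.MP_67f4ac_gt.LengthSetArithmeticity

open Filter MeasureTheory
open scoped ENNReal MatrixGroups

/-- Hyperbolic 3-space in the upper half space model: the pairs `(z, t)` with `z` complex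
and `t > 0`. -/
abbrev HSpace : Type := {p : ℂ × ℝ // 0 < p.2}

/-- The hyperbolic distance: `cosh d((z,t),(w,s)) = 1 + (|z-w|² + (t-s)²) / (2 t s)`. -/
noncomputable def hdist (x y : HSpace) : ℝ :=
  Real.arcosh (1 + (‖x.1.1 - y.1.1‖ ^ 2 + (x.1.2 - y.1.2) ^ 2) / (2 * x.1.2 * y.1.2))

/-- The hyperbolic volume: Lebesgue measure with density `t⁻³`. -/
noncomputable def hvol : Measure HSpace :=
  ((volume : Measure (ℂ × ℝ)).withDensity fun p => ENNReal.ofReal (1 / p.2 ^ 3)).comap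
    Subtype.val

/-- `Γ` is a discrete torsion-free group of isometries of hyperbolic 3-space and the complete
hyperbolic 3-manifold `Γ \ ℍ³` has finite volume and is not compact. -/
structure IsCusped (Γ : Subgroup (Equiv.Perm HSpace)) : Prop where
  isometric : ∀ γ ∈ Γ, ∀ x y : HSpace, hdist (γ x) (γ y) = hdist x y
  discrete : ∀ (x : HSpace) (R : ℝ), {γ | γ ∈ Γ ∧ hdist (γ x) x ≤ R}.Finite
  torsion_free : ∀ γ ∈ Γ, γ ≠ 1 → ∀ n : ℕ, 0 < n → γ ^ n ≠ 1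
  finite_volume : ∃ F : Set HSpace, MeasurableSet F ∧ hvol F < ⊤ ∧ ∀ x, ∃ γ ∈ Γ, γ x ∈ F
  not_compact : ¬ ∃ K : Set HSpace, IsCompact K ∧ ∀ x, ∃ γ ∈ Γ, γ x ∈ K

/-- The set of lengths of closed geodesics of `Γ \ ℍ³`: a closed geodesic of length `ℓ` lifts to
a geodesic line `c`, parametrised by arc length, with `γ (c t) = c (t + ℓ)` for some `γ ∈ Γ`. -/
def lengthSet (Γ : Subgroup (Equiv.Perm HSpace)) : Set ℝ :=
  {ℓ | 0 < ℓ ∧ ∃ γ ∈ Γ, ∃ c : ℝ → HSpace,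
    (∀ s t : ℝ, hdist (c s) (c t) = |s - t|) ∧ ∀ t : ℝ, γ (c t) = c (t + ℓ)}

/-- The number (possibly infinite) of distinct lengths `≤ L`. -/
noncomputable def lengthCount (Γ : Subgroup (Equiv.Perm HSpace)) (L : ℝ) : ℝ≥0∞ :=
  ((lengthSet Γ ∩ Set.Iic L).encard : ℝ≥0∞)

/-- `γ` is the orientation preserving isometry induced by `g ∈ SL₂(ℂ)` (Poincare extension of
the Moebius transformation `z ↦ (az+b)/(cz+d)`). -/
def Induces (g : SL(2, ℂ)) (γ : Equiv.Perm HSpace) : Prop :=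
  ∀ p : HSpace,
    (γ p).1.1 = ((g 0 0 * p.1.1 + g 0 1) * (starRingEnd ℂ) (g 1 0 * p.1.1 + g 1 1) +
        g 0 0 * (starRingEnd ℂ) (g 1 0) * (p.1.2 : ℂ) ^ 2) /
          ((‖g 1 0 * p.1.1 + g 1 1‖ ^ 2 + ‖g 1 0‖ ^ 2 * p.1.2 ^ 2 : ℝ) : ℂ) ∧
    (γ p).1.2 = p.1.2 / (‖g 1 0 * p.1.1 + g 1 1‖ ^ 2 + ‖g 1 0‖ ^ 2 * p.1.2 ^ 2)

/-- The ring of integers of the imaginary quadratic field `ℚ(√-d)`, inside `ℂ`. -/
def integers (d : ℕ) : Set ℂ :=
  {z | IsIntegral ℤ z ∧ ∃ u v : ℚ, z = (u : ℂ) + (v : ℂ) * ((Real.sqrt (d : ℝ) : ℂ) * Complex.I)}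

private theorem induces_iff (g : SL(2, ℂ)) (γ : Equiv.Perm HSpace) :
    Induces g γ ↔ γ = Work.MP_67f4ac_gt.act g := by
  constructor
  · intro h
    refine Equiv.ext fun p => Subtype.ext (Prod.ext ?_ ?_)
    · rw [(h p).1, Work.MP_67f4ac_gt.act_fst]
    · rw [(h p).2, Work.MP_67f4ac_gt.act_snd]
  · rintro rfl p
    exact ⟨Work.MP_67f4ac_gt.act_fst g p, Work.MP_67f4ac_gt.act_snd g p⟩

/-- The Bianchi group `PSL₂(O_d)` acting on hyperbolic 3-space. -/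
def bianchi (d : ℕ) : Subgroup (Equiv.Perm HSpace) where
  carrier := {γ | ∃ g : SL(2, ℂ), (∀ i j, g i j ∈ integers d) ∧ Induces g γ}
  mul_mem' := by
    rintro _ _ ⟨g, hg, hg'⟩ ⟨h, hh, hh'⟩
    rw [induces_iff] at hg' hh'
    refine ⟨g * h, ?_, (induces_iff _ _).2 (by rw [hg', hh', map_mul])⟩
    exact Work.MP_67f4ac_gt.mem_Bi_iff.1 (mul_mem (Work.MP_67f4ac_gt.mem_Bi_iff.2 hg)
      (Work.MP_67f4ac_gt.mem_Bi_iff.2 hh))
  one_mem' := by
    refine ⟨1, ?_, (induces_iff _ _).2 (map_one _).symm⟩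
    exact Work.MP_67f4ac_gt.mem_Bi_iff.1 (one_mem (Work.MP_67f4ac_gt.Bi d))
  inv_mem' := by
    rintro _ ⟨g, hg, hg'⟩
    rw [induces_iff] at hg'
    refine ⟨g⁻¹, ?_, (induces_iff _ _).2 (by rw [hg', map_inv])⟩
    exact Work.MP_67f4ac_gt.mem_Bi_iff.1 (inv_mem (Work.MP_67f4ac_gt.mem_Bi_iff.2 hg))

/-- `Γ` is an arithmetic (non-uniform) Kleinian group: up to conjugation in `PSL₂(ℂ)` it is
commensurable with a Bianchi group. -/
def IsArithmetic (Γ : Subgroup (Equiv.Perm HSpace)) : Prop :=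
  ∃ d : ℕ, 0 < d ∧ ∃ (k : SL(2, ℂ)) (φ : Equiv.Perm HSpace), Induces k φ ∧
    Subgroup.Commensurable (Γ.map (MulAut.conj φ).toMonoidHom) (bianchi d)

private theorem hdist_eq (x y : HSpace) :
    hdist x y = Real.arcosh (1 + Work.MP_67f4ac_gt.rho x y / 2) := by
  unfold hdist Work.MP_67f4ac_gt.rho
  congr 2
  rw [div_div]
  congr 1
  ring

private theorem arg_ge (x y : HSpace) : 1 ≤ 1 + Work.MP_67f4ac_gt.rho x y / 2 := by
  have := Work.MP_67f4ac_gt.rho_nonneg x y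
  linarith

private theorem relIndex_ne_zero {G : Type} [Group G] (A B : Subgroup G) (S : Finset G)
    (h : ∀ b ∈ B, ∃ s ∈ S, s⁻¹ * b ∈ A ∧ s⁻¹ * b ∈ B) : A.relIndex B ≠ 0 := by
  classical
  choose! F hFS hFA hFB using h
  have hfin : Finite (B ⧸ A.subgroupOf B) := by
    have hinj : Function.Injective (fun q : B ⧸ A.subgroupOf B => (⟨F q.out.1, hFS _ q.out.2⟩ : S)) := by
      intro q r hqr
      have h1 : F q.out.1 = F r.out.1 := congrArg Subtype.val hqr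
      rw [← q.out_eq, ← r.out_eq, Quotient.eq]
      show QuotientGroup.leftRel _ _ _
      rw [QuotientGroup.leftRel_apply, Subgroup.mem_subgroupOf]
      have h2 := A.mul_mem (A.inv_mem (hFA _ q.out.2)) (hFA _ r.out.2)
      rw [h1] at h2
      have h3 : ((F r.out.1)⁻¹ * q.out.1)⁻¹ * ((F r.out.1)⁻¹ * r.out.1) =
          (q.out.1)⁻¹ * r.out.1 := by group
      rw [h3] at h2
      exact h2
    exact Finite.of_injective _ hinj
  exact Subgroup.index_ne_zero_of_finite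

private theorem isIso_of_hdist {γ : Equiv.Perm HSpace}
    (h : ∀ x y : HSpace, hdist (γ x) (γ y) = hdist x y) : Work.MP_67f4ac_gt.IsIso γ := by
  intro x y
  have h1 := h x y
  rw [hdist_eq, hdist_eq] at h1
  have h2 := congrArg Real.cosh h1
  rw [Real.cosh_arcosh (arg_ge _ _), Real.cosh_arcosh (arg_ge _ _)] at h2
  linarith

private theorem LT_subset (Γ : Subgroup (Equiv.Perm HSpace)) {n L : ℝ} (hnL : n ≤ L) :
    Work.MP_67f4ac_gt.LT Γ n ⊆ lengthSet Γ ∩ Set.Iic L := by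
  rintro ℓ ⟨h0, hn, g, hg, hc⟩
  have h4 : 4 < Work.MP_67f4ac_gt.f (Work.MP_67f4ac_gt.tr g) := by
    have := Real.one_lt_cosh.2 h0.ne'
    linarith
  obtain ⟨c, hc1, hc2⟩ := Work.MP_67f4ac_gt.exists_axis g h4 h0 hc
  refine ⟨⟨h0, Work.MP_67f4ac_gt.act g, hg, c, ?_, hc2⟩, hn.trans hnL⟩
  intro s t
  rw [hdist_eq, hc1]
  have : 1 + (2 * Real.cosh (s - t) - 2) / 2 = Real.cosh |s - t| := by
    rw [Real.cosh_abs]; ring
  rw [this, Real.arcosh_cosh (abs_nonneg _)]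

private theorem count_bound (Γ : Subgroup (Equiv.Perm HSpace))
    (hN : liminf (fun L : ℝ => lengthCount Γ L / ENNReal.ofReal (Real.exp L)) atTop < ⊤) :
    ∃ C : ℝ, ∃ᶠ n : ℕ in atTop, (Work.MP_67f4ac_gt.LT Γ n).Finite ∧
      ((Work.MP_67f4ac_gt.LT Γ n).ncard : ℝ) ≤ C * Real.exp n := by
  obtain ⟨C, hC1, hC2⟩ := ENNReal.lt_iff_exists_nnreal_btwn.1 hN
  have hfr := frequently_lt_of_liminf_lt (by isBoundedDefault) hC1
  refine ⟨C * Real.exp 1, ?_⟩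
  refine (tendsto_nat_floor_atTop (α := ℝ)).frequently ((hfr.and_eventually (eventually_ge_atTop 0)).mono ?_)
  rintro L ⟨hL, hL0⟩
  have hfl : ((⌊L⌋₊ : ℕ) : ℝ) ≤ L := Nat.floor_le hL0
  have hfl2 : L < ⌊L⌋₊ + 1 := Nat.lt_floor_add_one L
  have hsub := LT_subset Γ hfl
  have hexp : ENNReal.ofReal (Real.exp L) ≠ 0 := by
    simp [Real.exp_pos]
  have h1 : lengthCount Γ L ≤ C * ENNReal.ofReal (Real.exp L) := by
    have := (ENNReal.div_le_iff hexp ENNReal.ofReal_ne_top).1 hL.le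
    exact this
  have h2 : ((Work.MP_67f4ac_gt.LT Γ (⌊L⌋₊ : ℕ)).encard : ℝ≥0∞) ≤ C * ENNReal.ofReal (Real.exp L) := by
    refine le_trans ?_ h1
    unfold lengthCount
    exact_mod_cast Set.encard_le_encard hsub
  have hfin : (Work.MP_67f4ac_gt.LT Γ (⌊L⌋₊ : ℕ)).Finite := by
    rw [← Set.encard_ne_top_iff]
    intro htop
    rw [htop] at h2
    have h3 : (C : ℝ≥0∞) * ENNReal.ofReal (Real.exp L) < ⊤ :=
      ENNReal.mul_lt_top ENNReal.coe_lt_top ENNReal.ofReal_lt_top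
    exact absurd h2 (not_le.2 (by simpa using h3))
  refine ⟨hfin, ?_⟩
  rw [← hfin.cast_ncard_eq] at h2
  have h4 : (((Work.MP_67f4ac_gt.LT Γ (⌊L⌋₊ : ℕ)).ncard : ℕ) : ℝ) ≤ C * Real.exp L := by
    have h5 : (((Work.MP_67f4ac_gt.LT Γ (⌊L⌋₊ : ℕ)).ncard : ℕ) : ℝ≥0∞) ≤ C * ENNReal.ofReal (Real.exp L) := by
      simpa using h2
    have h6 : (C : ℝ≥0∞) * ENNReal.ofReal (Real.exp L) ≠ ⊤ :=
      ENNReal.mul_ne_top ENNReal.coe_ne_top ENNReal.ofReal_ne_top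
    have h7 := ENNReal.toReal_mono h6 h5
    rw [ENNReal.toReal_mul, ENNReal.toReal_ofReal (Real.exp_pos _).le] at h7
    simpa using h7
  refine h4.trans ?_
  have h8 : Real.exp L ≤ Real.exp 1 * Real.exp (⌊L⌋₊ : ℕ) := by
    rw [← Real.exp_add]
    apply Real.exp_le_exp.2
    linarith
  calc (C : ℝ) * Real.exp L ≤ C * (Real.exp 1 * Real.exp (⌊L⌋₊ : ℕ)) :=
        mul_le_mul_of_nonneg_left h8 C.2
    _ = _ := by ring

/-- **Theorem.** Let `Γ \ ℍ³` be a complete non-compact hyperbolic 3-manifold of finite volume and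
let `N(L)` be the number of distinct lengths `≤ L` of its closed geodesics.  If
`liminf e^(-L) N(L) < ∞` as the real number `L` tends to infinity, then the manifold is arithmetic.
(Equivalently `e^(-L) N(L) → ∞` for every non-arithmetic one.) -/
theorem result (Γ : Subgroup (Equiv.Perm HSpace)) (hΓ : IsCusped Γ)
    (hN : liminf (fun L : ℝ => lengthCount Γ L / ENNReal.ofReal (Real.exp L)) atTop < ⊤) :
    IsArithmetic Γ := by
  obtain ⟨d, hd, φ, ⟨k, hk⟩, ⟨S, hS⟩, ⟨S', hS'⟩⟩ := Work.MP_67f4ac_gt.final_coreT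
    (fun K _ _ hK t t' c c' w w' hD ε hε => Work.MP_67f4ac_gt.sieve K hK t t' c c' w w' hD ε hε) Γ
    (fun γ hγ => isIso_of_hdist (hΓ.isometric γ hγ))
    (by
      intro x R
      refine (hΓ.discrete x (Real.arcosh (1 + R / 2))).subset ?_
      rintro γ ⟨hγ, hR⟩
      refine ⟨hγ, ?_⟩
      have h1 := arg_ge (γ x) x
      rw [hdist_eq, Real.arcosh_le_arcosh (by linarith) (by linarith)]
      linarith)
    (by
      intro γ hγ n hn h
      by_contra hne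
      exact hΓ.torsion_free γ hγ hne n hn h)
    (by
      obtain ⟨F, hF, hvF, hcF⟩ := hΓ.finite_volume
      refine ⟨Subtype.val '' F, Work.MP_67f4ac_gt.measEmb.measurableSet_image.2 hF, ?_, ?_, ?_⟩
      · rintro _ ⟨x, _, rfl⟩
        exact x.2
      · have h1 : hvol F = ∫⁻ p in (Subtype.val '' F), ENNReal.ofReal (1 / p.2 ^ 3) :=
          Work.MP_67f4ac_gt.mu_apply hF
        rw [← h1]
        exact hvF
      · intro x
        obtain ⟨γ, hγ, hx⟩ := hcF x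
        exact ⟨γ, hγ, _, hx, rfl⟩)
    hΓ.not_compact (count_bound Γ hN)
  refine ⟨d, hd, k, φ, (induces_iff _ _).2 hk, ?_, ?_⟩
  · -- finite index in the Bianchi group
    classical
    refine relIndex_ne_zero _ _ (S'.image fun s => φ * s * φ⁻¹) ?_
    rintro δ ⟨g, hg, hδ⟩
    rw [induces_iff] at hδ
    obtain ⟨s, hs, hs1, g', hg', hs2⟩ := hS' (φ⁻¹ * δ * φ) ⟨g, hg, by rw [← hδ]; group⟩
    refine ⟨φ * s * φ⁻¹, Finset.mem_image.2 ⟨s, hs, rfl⟩, ?_, ?_⟩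
    · refine Subgroup.mem_map.2 ⟨_, hs1, ?_⟩
      show φ * (s⁻¹ * (φ⁻¹ * δ * φ)) * φ⁻¹ = _
      group
    · refine ⟨g', hg', (induces_iff _ _).2 ?_⟩
      rw [← hs2]
      group
  · -- finite index in the conjugate of Γ
    classical
    refine relIndex_ne_zero _ _ (S.image fun s => φ * s * φ⁻¹) ?_
    intro δ hδ
    obtain ⟨γ, hγ, rfl⟩ := Subgroup.mem_map.1 hδ
    obtain ⟨s, hs, hs1, g', hg', hs2⟩ := hS γ hγ
    refine ⟨φ * s * φ⁻¹, Finset.mem_image.2 ⟨s, hs, rfl⟩, ?_, ?_⟩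
    · refine ⟨g', hg', (induces_iff _ _).2 ?_⟩
      rw [← hs2]
      show (φ * s * φ⁻¹)⁻¹ * (φ * γ * φ⁻¹) = _
      group
    · refine Subgroup.mem_map.2 ⟨_, hs1, ?_⟩
      show φ * (s⁻¹ * γ) * φ⁻¹ = (φ * s * φ⁻¹)⁻¹ * (φ * γ * φ⁻¹)
      group

end Pool.Agent.Results.MP_67f4ac_gt.LengthSetArithmeticity
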